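import Mathlib
import Pool.Agent.H.MP_26b317_lc.G

set_option autoImplicit false

namespace Pool.Agent.Results.MP_26b317_lc.Cubic

open Pool.Agent.H.Ram Pool.Agent.H.Gap Matrix

theorem result : ∃ (P : Cmd) (C c : ℝ), 0 < c ∧
    ∀ (n : ℕ) (A : Matrix (Fin n) (Fin n) ℂ) (δ : ℝ), 1 ≤ n → A.IsHermitian →
      (∀ u v : Fin n, (u.val + 1 < v.val ∨ v.val + 1 < u.val) → A u v = 0) → 0 < δ →
      ((P.run (input A δ)).cost : ℝ) ≤ C * (n : ℝ) ^ 3 * (1 + Real.log n) ∧
      ∃ e : Fin n → ℝ, (∀ u : Fin n, (P.run (input A δ)).m (2, 0, 0, u.val) = (e u : ℂ)) ∧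
        (∀ u, |e u| ≤ 1) ∧
        ∃ hM : (A + (δ : ℂ) • Matrix.diagonal fun u => (e u : ℂ)).IsHermitian,
          ∀ i j : Fin n, i ≠ j →
            c * δ / (n : ℝ) ^ 13 ≤ |hM.eigenvalues i - hM.eigenvalues j| := by
  refine ⟨prog, 1000000, 1 / (4 * 72 ^ 6), by positivity, fun n A δ hn hA hT hδ => ?_⟩
  have hnR : (1 : ℝ) ≤ n := by exact_mod_cast hn
  have i0 : (input A δ).v 0 = n := by simp [input]
  have i5 : (input A δ).v 5 = 0 := by simp [input]
  have iA : ∀ i j, (input A δ).m (0, 0, i, j) = Pool.Agent.H.Ram.ext A i j := fun i j => by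
    simp only [input, Pool.Agent.H.Ram.ext, true_and]
    split_ifs with h h2
    · rfl
    · simp at h2
    · rfl
  have i1 : (input A δ).m (1, 0, 0, 0) = δ := by simp [input]
  have i8 : (input A δ).m (8, 0, 0, 0) = 0 := by simp [input]
  have ic : (input A δ).cost = 0 := rfl
  generalize input A δ = s at *
  have e0 : prog.run s = cR.run (cJ.run s) := by simp only [prog, Cmd.run]
  rw [e0]
  obtain ⟨a1, a2, J, a3, a4, a5⟩ := cJ_spec s i5
  have a6 := (run_cost [0] s.v cJ (by decide) s (fun _ _ => rfl)).2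
  have a7 := cb_cJ s.v
  generalize cJ.run s = s1 at *
  rw [i0] at a2 a4 a5 a7
  have hJ : (2 : ℝ) ^ J ≤ 3 * n := by
    have : 2 ^ J ≤ 3 * n := by omega
    exact_mod_cast this
  have hJ' : (n : ℝ) ≤ 2 ^ J := by exact_mod_cast a4
  constructor
  · have b1 := (run_cost [0, 5] s1.v cR (by decide) s1 (fun _ _ => rfl)).2
    have b2 := cb_cR s1.v (by omega)
    rw [a2, a3] at b2
    have h2 : n ≤ n ^ 3 := Nat.le_self_pow (by simp) n
    have b3 : (cR.run s1).cost ≤ 50000 * n ^ 3 * (5 + 2 * J) := by nlinarith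
    have b4 : ((cR.run s1).cost : ℝ) ≤ 50000 * (n : ℝ) ^ 3 * (5 + 2 * J) := by exact_mod_cast b3
    have l0 : 0 ≤ Real.log n := Real.log_nonneg hnR
    have l1 : (J : ℝ) * Real.log 2 ≤ Real.log 3 + Real.log n := by
      rw [← Real.log_pow, ← Real.log_mul (by norm_num) (by positivity)]
      exact Real.log_le_log (by positivity) hJ
    have l2 := Real.log_two_gt_d9
    have l3 : Real.log 3 ≤ 2 := by
      have := Real.log_le_sub_one_of_pos (show (0 : ℝ) < 3 by norm_num)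
      linarith
    have l4 : (0 : ℝ) ≤ J := by positivity
    have l5 : (5 + 2 * J : ℝ) ≤ 20 * (1 + Real.log n) := by nlinarith
    calc _ ≤ _ := b4
      _ ≤ 50000 * (n : ℝ) ^ 3 * (20 * (1 + Real.log n)) := by gcongr
      _ = _ := by ring
  · obtain ⟨R, c, hc, hR1, hR2, hR3⟩ := spec hA hT
    have e1 : cR.run s1 = cE.run (cO.run ((st 9 (.div (sc 1) (.nat (.lit 2)))).run s1)) := by
      simp only [cR, Cmd.run]
    rw [e1]
    obtain ⟨b1, b2, b3⟩ := st_run 9 (.div (sc 1) (.nat (.lit 2))) s1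
    generalize (st 9 _).run s1 = s2 at *
    simp only [CE.ev, NE.ev, sc, a1, i1] at b2
    obtain ⟨⟨t, c1, c2, c3, c4⟩, c5, c6⟩ := cO_spec hn hT hc hR2 s2 (by rw [b1, a2])
      (fun i j => by rw [b3 _ (by simp), a1, iA]) δ hδ (by rw [b3 _ (by simp), a1, i8])
      (by rw [b2]; push_cast; rfl)
    generalize cO.run s2 = s3 at *
    rw [b1, a3] at c4
    have d1 := cE_spec s3
    rw [c1, c5 _ (by simp), b3 _ (by simp), a1, i1, c6] at d1
    have hE : A + (δ : ℂ) • Matrix.diagonal (fun u : Fin n => ((t / δ * (u.val / n) : ℝ) : ℂ)) =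
        Hz A t := by
      rw [Hz, ← diagonal_smul]
      congr 2
      funext u
      have : (δ : ℂ) ≠ 0 := by exact_mod_cast hδ.ne'
      simp only [Pi.smul_apply, smul_eq_mul]
      push_cast
      field_simp
    refine ⟨fun u => t / δ * (u.val / n), fun u => by rw [d1 u u.2]; push_cast; rfl, fun u => ?_, ?_⟩
    · rw [abs_of_nonneg (by positivity)]
      have h1 : t / δ ≤ 1 := (div_le_one hδ).mpr c3
      have h2 : (u.val : ℝ) / n ≤ 1 := (div_le_one (by positivity)).mpr (by exact_mod_cast u.2.le)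
      exact mul_le_one₀ h1 (by positivity) h2
    · rw [hE]
      refine ⟨Hz_herm hA t, fun i j hij => ?_⟩
      have hp : 0 < δ / 2 / 64 ^ (J + J + 3) := by positivity
      have hcard : (R.card : ℝ) ≤ (n : ℝ) ^ 2 := by exact_mod_cast hR1
      have h8 : (2 : ℝ) ^ (J + J + 3) = 8 * (2 ^ J) ^ 2 := by ring
      have := hR3 t _ (far_of_GG R t hp (c4.trans_lt (by
        rw [h8, div_lt_div_iff₀ (by positivity) (by norm_num)]
        have : (n : ℝ) ^ 2 ≤ (2 ^ J) ^ 2 := by gcongr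
        have : (0 : ℝ) < (2 ^ J) ^ 2 := by positivity
        linarith))) (Hz_herm hA t) i j hij
      have h64 : (64 : ℝ) ^ (J + J + 3) ≤ 72 ^ 6 * (n : ℝ) ^ 12 := by
        calc (64 : ℝ) ^ (J + J + 3) = (2 ^ (J + J + 3)) ^ 6 := by
              rw [← pow_mul, mul_comm, pow_mul]; norm_num
          _ = (8 * (2 ^ J) ^ 2) ^ 6 := by rw [h8]
          _ ≤ (8 * (3 * n) ^ 2) ^ 6 := by gcongr
          _ = _ := by ring
      have h9 : δ / 2 / (72 ^ 6 * (n : ℝ) ^ 12) ≤ δ / 2 / 64 ^ (J + J + 3) := by gcongr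
      have h10 := h9.trans this
      rw [div_le_iff₀ (by positivity)] at h10 ⊢
      calc 1 / (4 * 72 ^ 6) * δ = δ / 2 / (2 * 72 ^ 6) := by ring
        _ ≤ _ := by
          rw [div_le_iff₀ (by positivity)]
          exact h10.trans (le_of_eq (by ring))

end Pool.Agent.Results.MP_26b317_lc.Cubic
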